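import Pool.Agent.Lib.MP_de94ef_pr.W.Fkg
import Pool.Agent.Lib.MP_de94ef_pr.Q.Final

/-!
Descent of the variance exponent to the exponent of the non-random error.
-/

open MeasureTheory ProbabilityTheory Set Real Function Filter Topology
open scoped ENNReal NNReal

namespace Pool.Agent.Lib.MP_de94ef_pr.Q.V

/-- A scale with two exponents. -/
noncomputable def ph (e e' c r : ℝ) : ℝ := max (r ^ e) (c * r ^ e')

variable {e e' c : ℝ}

lemma ph_ge (e e' c r : ℝ) : r ^ e ≤ ph e e' c r := le_max_left _ _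

lemma ph_up (h : e ≤ e') (c : ℝ) {k r : ℝ} (hk : 1 ≤ k) (hr : 0 ≤ r) :
    ph e e' c (k * r) ≤ k ^ e' * ph e e' c r := by
  have k0 : 0 ≤ k ^ e' := rpow_nonneg (by linarith) _
  unfold ph
  rw [mul_rpow (by linarith) hr, mul_rpow (by linarith) hr, mul_max_of_nonneg _ _ k0]
  exact max_le_max (mul_le_mul_of_nonneg_right (rpow_le_rpow_of_exponent_le hk h)
    (rpow_nonneg hr _)) (le_of_eq (by ring))

lemma ph_low (h : e ≤ e') (hc : 0 ≤ c) {k r : ℝ} (hk : 1 ≤ k) (hr : 0 ≤ r) :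
    k ^ e * ph e e' c r ≤ ph e e' c (k * r) := by
  have k0 : 0 ≤ k ^ e := rpow_nonneg (by linarith) _
  unfold ph
  rw [mul_rpow (by linarith) hr, mul_rpow (by linarith) hr, mul_max_of_nonneg _ _ k0]
  refine max_le_max le_rfl ?_
  rw [mul_left_comm]
  exact mul_le_mul_of_nonneg_left (mul_le_mul_of_nonneg_right (rpow_le_rpow_of_exponent_le hk h)
    (rpow_nonneg hr _)) hc

lemma sc_ph {A : ℝ} (hA : 10 ^ 30 ≤ A) (h1 : 1 / 3 ≤ e) (h : e ≤ e') (h2 : e' ≤ 1 / 2)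
    (hc : 0 ≤ c) : Sc fun r => A * ph e e' c r := by
  have A0 : 0 < A := lt_of_lt_of_le (by norm_num) hA
  have p0 : ∀ r, 0 ≤ r → 0 ≤ ph e e' c r := fun r hr => (rpow_nonneg hr _).trans (ph_ge ..)
  refine ⟨fun r hr => mul_nonneg A0.le (p0 r hr), fun r r' hr hr' => ?_, fun r k hr hk => ?_,
    fun r hr => ?_, fun r hr => ?_⟩
  · have e0 : 0 ≤ e := by linarith
    have e1 : 0 ≤ e' := by linarith
    unfold ph
    gcongr
  · have a1 : (k ^ 2) ^ e' ≤ k := by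
      rw [← rpow_natCast, ← rpow_mul (by linarith)]
      exact (rpow_le_rpow_of_exponent_le hk (by push_cast; linarith)).trans (rpow_one k).le
    have a2 := (ph_up h c (one_le_pow₀ (n := 2) hk) hr).trans
      (mul_le_mul_of_nonneg_right a1 (p0 r hr))
    linarith [mul_le_mul_of_nonneg_left a2 A0.le]
  · have a1 : (5 / 4 : ℝ) ≤ 2 ^ e := by
      refine le_trans ?_ (rpow_le_rpow_of_exponent_le (by norm_num) h1)
      refine le_of_pow_le_pow_left₀ (n := 3) (by norm_num) (by positivity) ?_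
      rw [← rpow_natCast ((2 : ℝ) ^ (1 / 3 : ℝ)), ← rpow_mul (by norm_num)]
      norm_num
    have a2 := (mul_le_mul_of_nonneg_right a1 (p0 (r / 2) (by linarith))).trans
      (ph_low h hc (k := 2) (r := r / 2) (by norm_num) (by linarith))
    rw [mul_div_cancel₀ _ (two_ne_zero)] at a2
    linarith [mul_le_mul_of_nonneg_left a2 A0.le]
  · have := (one_le_rpow hr (show 0 ≤ e by linarith)).trans (ph_ge e e' c r)
    nlinarith

lemma conc_gen : ∃ ε K : ℝ, 0 < ε ∧ ∀ (μ : ℝ × ℝ → ℝ) (σ : ℝ → ℝ), IsTC μ → Sc σ →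
    (∀ r, 1 ≤ r → K ≤ σ r) → (∀ v, 1 ≤ n1 v → Var[fun ω => TT ω 0 v; PE] ≤ ε * σ (n1 v) ^ 2) →
    ∀ R, Conc σ R := by
  obtain ⟨ε, K, hε, h⟩ := concStep
  refine ⟨ε, K, hε, fun μ σ hμ hs hK hV => ?_⟩
  have all : ∀ n : ℕ, Conc σ (2 ^ n) := by
    intro n
    induction n with
    | zero =>
      intro x y r r1 r2 r3
      obtain rfl : r = 1 := le_antisymm (by simpa using r3) r2
      have a2 : 4800 * sig 1 ≤ σ 1 := by linarith [sig_le_self le_rfl, hs.big 1 le_rfl]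
      have a3 := sig_pos r2
      exact ⟨(dom_up x y r1 r2).scale (by linarith) a2,
        (dom_down x y r1 r2).scale (by linarith) a2⟩
    | succ n ih =>
      rw [pow_succ']
      exact h μ _ _ hμ hs hK hV (one_le_pow₀ (by norm_num)) ih
  intro R x y r r1 r2 _
  obtain ⟨n, hn⟩ := pow_unbounded_of_one_lt r (by norm_num : (1 : ℝ) < 2)
  exact all n x y r r1 r2 hn.le

lemma descent {μ : ℝ × ℝ → ℝ} (hμ : IsTC μ) {G : ℝ} (h1 : 1 / 3 ≤ e) (h : e ≤ e')
    (h2 : e' < 1 / 2) (hG : ∀ v, 1 ≤ n1 v → hh v - μ (iv v) ≤ G * n1 v ^ e) :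
    ∃ ε A0 : ℝ, 0 < ε ∧ 0 < A0 ∧ ∀ c A : ℝ, 0 ≤ c → A0 ≤ A →
      (∀ v, 1 ≤ n1 v → Var[fun ω => TT ω 0 v; PE] ≤ ε * (A * ph e e' c (n1 v)) ^ 2) →
      ∀ v, 1 ≤ n1 v → Var[fun ω => TT ω 0 v; PE] ≤ ε * (3 / 4 * A * ph e e' c (n1 v)) ^ 2 := by
  obtain ⟨ε, K0, hε, H⟩ := conc_gen
  obtain ⟨K, K1, K2, K3⟩ : ∃ K : ℕ, 4 ≤ K ∧ 128 / ε ≤ (K : ℝ) ^ (1 - 2 * e') ∧
      2304 / ε ≤ (K : ℝ) ^ (2 * e) :=
    ((eventually_ge_atTop 4).and (((tendsto_natCast_atTop_atTop (R := ℝ)).eventually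
      (((tendsto_rpow_atTop (by linarith)).eventually_ge_atTop _).and
        ((tendsto_rpow_atTop (by linarith)).eventually_ge_atTop _))))).exists
  have hK : (4 : ℝ) ≤ K := by exact_mod_cast K1
  have g0 := abs_nonneg G
  refine ⟨ε, 10 ^ 30 + |K0| + 2 * |G| + 32 * |G| * K / ε, hε, by positivity,
    fun c A hc hA hV v hv => ?_⟩
  have z1 := abs_nonneg K0
  have z2 : 0 ≤ 32 * |G| * K / ε := by positivity
  have A0 : 0 < A := by linarith
  have hs := sc_ph (A := A) (by linarith) h1 h h2.le hc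
  have hcc := H μ _ hμ hs (fun r hr => by
    have := (one_le_rpow hr (show 0 ≤ e by linarith)).trans (ph_ge e e' c r)
    nlinarith [le_abs_self K0]) hV
  have n0 : 0 ≤ n1 v := by linarith
  have p1 := ph_ge e e' c (n1 v)
  have p2 := ph_up h c (k := K) (by linarith) n0
  have p3 := ph_low h hc (k := K) (by linarith) n0
  have p4 : 1 ≤ n1 v ^ e := one_le_rpow hv (by linarith)
  have g1 : hh v - μ (iv v) ≤ |G| * ph e e' c (n1 v) :=
    (hG v hv).trans (mul_le_mul (le_abs_self G) p1 (by linarith) g0)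
  have g2 := hμ.le_hh v
  have k1 : 1 ≤ (K : ℝ) ^ e := one_le_rpow (by linarith) (by linarith)
  have k2 : (K : ℝ) ^ e' ≤ K :=
    (rpow_le_rpow_of_exponent_le (by linarith) (by linarith)).trans (rpow_one _).le
  have k3 : (K : ℝ) ^ (1 - 2 * e') * (K ^ e') ^ 2 = K := by
    rw [← rpow_two, ← rpow_mul (by linarith), ← rpow_add (by linarith)]
    norm_num [show 1 - 2 * e' + e' * 2 = 1 by ring]
  have k4 : (K : ℝ) ^ (2 * e) = (K ^ e) ^ 2 := by
    rw [← rpow_two, ← rpow_mul (by linarith), mul_comm]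
  have k5 : 0 ≤ (K : ℝ) ^ e' := rpow_nonneg (by linarith) _
  have key := var_step hμ hcc hv K1
  generalize ph e e' c (n1 v) = P at *
  generalize ph e e' c (K * n1 v) = Q at *
  generalize hh v - μ (iv v) = g at *
  rw [k4] at K3
  generalize (K : ℝ) ^ e = a at *
  generalize (K : ℝ) ^ e' = b at *
  have P0 : 0 < P := by linarith
  have PQ : P ≤ Q := by nlinarith
  have Q0 : 0 < Q := by linarith
  have d0 : 2 * g ≤ A * Q := by nlinarith
  refine (key (by positivity) (by positivity) d0).trans ?_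
  have d1 : 16 * (A * Q) ^ 2 / K ≤ ε / 8 * (A * P) ^ 2 := by
    rw [div_le_iff₀ hε] at K2
    have f1 : Q ^ 2 ≤ (b * P) ^ 2 := pow_le_pow_left₀ Q0.le p2 2
    have f2 : 128 * b ^ 2 ≤ ε * K := by
      rw [← k3]; nlinarith [mul_le_mul_of_nonneg_right K2 (sq_nonneg b)]
    rw [div_le_iff₀ (by linarith)]
    nlinarith [mul_le_mul_of_nonneg_left f1 (sq_nonneg A),
      mul_le_mul_of_nonneg_right f2 (sq_nonneg (A * P))]
  have d2 : 8 * g * (A * Q) ≤ ε / 4 * (A * P) ^ 2 := by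
    have f1 : Q ≤ K * P := p2.trans (mul_le_mul_of_nonneg_right k2 P0.le)
    have f2 : 32 * |G| * K ≤ A * ε := (div_le_iff₀ hε).1 (by linarith)
    have f3 : g * Q ≤ |G| * P * (K * P) := mul_le_mul g1 f1 Q0.le (by positivity)
    nlinarith [mul_le_mul_of_nonneg_left f3 A0.le,
      mul_le_mul_of_nonneg_right f2 (show 0 ≤ A * P ^ 2 by positivity)]
  have d3 : 288 * (A * P) ^ 4 / (A * Q) ^ 2 ≤ ε / 8 * (A * P) ^ 2 := by
    rw [div_le_iff₀ hε] at K3
    have f1 : (a * P) ^ 2 ≤ Q ^ 2 := pow_le_pow_left₀ (by positivity) p3 2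
    rw [div_le_iff₀ (by positivity)]
    nlinarith [mul_le_mul_of_nonneg_left f1 (show 0 ≤ ε * A ^ 4 * P ^ 2 by positivity),
      mul_le_mul_of_nonneg_right K3 (show 0 ≤ (A * P) ^ 4 by positivity)]
  nlinarith [mul_nonneg hε.le (sq_nonneg (A * P))]

/-- A bound on the non-random error gives the variance bound at the same scale. -/
theorem var_of_mean {μ : ℝ × ℝ → ℝ} (hμ : IsTC μ) {G : ℝ} (h1 : 1 / 3 ≤ e) (h2 : e < 1 / 2)
    (hG : ∀ v, 1 ≤ n1 v → hh v - μ (iv v) ≤ G * n1 v ^ e) :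
    ∃ D : ℝ, ∀ v, 1 ≤ n1 v → Var[fun ω => TT ω 0 v; PE] ≤ D * n1 v ^ (2 * e) := by
  obtain ⟨A1, e0, -, e2, hA1, -, hcc⟩ := Q.conc_all
  obtain ⟨ε, A0, hε, hA0, H⟩ := descent hμ h1 (le_max_left e e0) (max_lt h2 e2) hG
  refine ⟨ε * A0 ^ 2, fun v hv => ?_⟩
  obtain ⟨c, hc⟩ : ∃ c, c = n1 v ^ (e - max e e0) := ⟨_, rfl⟩
  have c0 : 0 < c := by rw [hc]; exact rpow_pos_of_pos (by linarith) _
  have down : ∀ k : ℕ, (∀ w, 1 ≤ n1 w → Var[fun ω => TT ω 0 w; PE] ≤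
      ε * ((4 / 3) ^ k * A0 * ph e (max e e0) c (n1 w)) ^ 2) → ∀ w, 1 ≤ n1 w →
      Var[fun ω => TT ω 0 w; PE] ≤ ε * (A0 * ph e (max e e0) c (n1 w)) ^ 2 := by
    intro k
    induction k with
    | zero => simp
    | succ k ih =>
      refine fun hk => ih fun w hw => (H c _ c0.le ?_ hk w hw).trans (le_of_eq ?_)
      · exact le_mul_of_one_le_left hA0.le (one_le_pow₀ (by norm_num))
      · rw [pow_succ]; ring
  obtain ⟨k, hk⟩ := pow_unbounded_of_one_lt ((1153 / ε + 1) * A1 / (A0 * c))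
    (by norm_num : (1 : ℝ) < 4 / 3)
  rw [div_lt_iff₀ (by positivity)] at hk
  refine (down k (fun w hw => ?_) v hv).trans (le_of_eq ?_)
  · have w0 : 0 < n1 w ^ e0 := rpow_pos_of_pos (by linarith) _
    refine (var_conc (hcc μ hμ _) le_rfl hw le_rfl (by positivity)).trans ?_
    have a1 : c * n1 w ^ e0 ≤ ph e (max e e0) c (n1 w) :=
      le_trans (mul_le_mul_of_nonneg_left (rpow_le_rpow_of_exponent_le hw (le_max_right _ _))
        c0.le) (le_max_right _ _)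
    have a2 : (1153 / ε + 1) * (A1 * n1 w ^ e0) ≤
        (4 / 3) ^ k * A0 * ph e (max e e0) c (n1 w) := by
      nlinarith [mul_le_mul_of_nonneg_right hk.le w0.le,
        mul_le_mul_of_nonneg_left a1 (show 0 ≤ (4 / 3 : ℝ) ^ k * A0 by positivity)]
    have a3 := pow_le_pow_left₀ (by positivity) a2 2
    have a4 : 1153 ≤ ε * (1153 / ε + 1) ^ 2 := by
      have b1 : ε * (1153 / ε) = 1153 := by field_simp
      have b2 : 0 ≤ 1153 / ε := by positivity
      nlinarith [mul_nonneg hε.le (mul_nonneg b2 b2)]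
    change 1153 * (A1 * n1 w ^ e0) ^ 2 ≤ _
    nlinarith [mul_le_mul_of_nonneg_left a3 hε.le,
      mul_le_mul_of_nonneg_right a4 (sq_nonneg (A1 * n1 w ^ e0))]
  · have : ph e (max e e0) c (n1 v) = n1 v ^ e := by
      unfold ph
      rw [hc, ← rpow_add (by linarith), sub_add_cancel, max_self]
    rw [this, mul_pow, ← mul_assoc, mul_comm 2 e, rpow_mul (by linarith), rpow_two]

/-- A variance bound gives a bound on the non-random error at the same scale. -/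
theorem mean_of_var {μ : ℝ × ℝ → ℝ} (hμ : IsTC μ) {D : ℝ} (h1 : 1 / 3 ≤ e) (h2 : e ≤ 1 / 2)
    (hV : ∀ v, 1 ≤ n1 v → Var[fun ω => TT ω 0 v; PE] ≤ D * n1 v ^ (2 * e)) :
    ∃ G : ℝ, 0 ≤ G ∧ ∀ v, hh v - μ (iv v) ≤ G * n1 v ^ e := by
  obtain ⟨A, hA, hs, hcc⟩ := conc_all hμ h1 h2 hV
  obtain ⟨B, hB, h⟩ := meanB
  refine ⟨B * A, by positivity, fun v => ?_⟩
  have := h μ _ (n1 v) hμ hs (hcc _) v (n1 v) (hμ.le _) (by linarith [n1_nonneg v])
  simp only at this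
  linarith

end Pool.Agent.Lib.MP_de94ef_pr.Q.V
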