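import Pool.Agent.Lib.MP_de94ef_pr.V.Conv

/-!
The variance is controlled by the non-random error, through the Harris inequality.
-/

open MeasureTheory ProbabilityTheory Set Real Function Filter Topology
open scoped ENNReal NNReal

namespace Pool.Agent.Lib.MP_de94ef_pr.Q.V

lemma wt_env {ω ω' : Env} (h : ω ≤ ω') (S : Finset EE) : wt ω S ≤ wt ω' S :=
  Finset.sum_le_sum fun e _ => max_le_max (h e) le_rfl

lemma mono_TT (x y : VV) : Monotone fun ω => TT ω x y := fun ω _ h =>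
  le_TT fun p _ => (TT_le ω p).trans (wt_env h _)

lemma mono_TL {L : ℕ} {x y : VV} (hL : n1 (y - x) ≤ L) : Monotone (TL L x y) := fun ω _ h => by
  have : Nonempty {p : GG.Walk x y // ∀ w ∈ p.support, w ∈ box x L} := ⟨⟨_, stair_mem hL⟩⟩
  exact le_val fun p => by simpa using (TL_le ω p.1 p.2).trans (wt_env h _)

lemma eventually_n1 (x w : VV) : ∀ᶠ L : ℕ in atTop, n1 (w - x) ≤ L :=
  (tendsto_natCast_atTop_atTop (R := ℝ)).eventually_ge_atTop _

lemma tendsto_TL (x y : VV) (ω : Env) :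
    Tendsto (fun L : ℕ => TL L x y ω) atTop (𝓝 (TT ω x y)) := by
  refine tendsto_order.2 ⟨fun a ha => ?_, fun a ha => ?_⟩
  · filter_upwards [eventually_n1 x y] with L hL using ha.trans_le (TT_le_TL hL ω)
  · obtain ⟨p, -, hp⟩ := exists_lt_TT ha
    have h : ∀ᶠ L : ℕ in atTop, ∀ w ∈ {w | w ∈ p.support}, n1 (w - x) ≤ L :=
      (eventually_all_finite (List.finite_toSet _)).2 fun w _ => eventually_n1 x w
    filter_upwards [h] with L hL using
      (TL_le ω p fun w hw => mem_box_of_n1 (hL w hw)).trans_lt hp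

lemma harris_TT (x y : VV) {θ : ℝ} (hθ : 0 ≤ θ) (c : ℝ) {G : Env → ℝ≥0∞} (hG : Measurable G)
    (aG : Antitone G) :
    (∫⁻ ω, ENNReal.ofReal (exp (θ * (c - TT ω x y))) ∂PE) * ∫⁻ ω, G ω ∂PE ≤
      ∫⁻ ω, ENNReal.ofReal (exp (θ * (c - TT ω x y))) * G ω ∂PE := by
  generalize hb : ∫⁻ ω, G ω ∂PE = b
  have t1 : ∀ ω, Tendsto (fun L : ℕ => ENNReal.ofReal (exp (θ * (c - TL L x y ω))) * b) atTop
      (𝓝 (ENNReal.ofReal (exp (θ * (c - TT ω x y))) * b)) := fun ω =>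
    ENNReal.Tendsto.mul_const (ENNReal.tendsto_ofReal
      (((tendsto_TL x y ω).const_sub c).const_mul θ).rexp) (Or.inl (by simp [exp_pos]))
  rw [← lintegral_mul_const _ (by fun_prop)]
  simp only [← fun ω => (t1 ω).liminf_eq]
  refine (lintegral_liminf_le fun L => by fun_prop).trans
    (liminf_le_of_frequently_le' (Eventually.frequently ?_))
  filter_upwards [eventually_n1 x y] with L hL
  rw [lintegral_mul_const _ (by fun_prop), ← hb]
  refine (harris ((box x L).sym2) (F := fun ω => ENNReal.ofReal (exp (θ * (c - TL L x y ω))))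
    (by fun_prop) hG (fun ω ω' h => ?_) aG fun ω ω' h => ?_).trans (lintegral_mono fun ω => ?_)
  · have := mono_TL hL h
    simp only
    gcongr
  · simp only [dependsOn_TL L x y h]
  · have := TT_le_TL hL ω
    simp only
    gcongr

lemma harris_blocks (v : VV) {θ : ℝ} (hθ : 0 ≤ θ) (c : ℝ) (K : ℕ) :
    (∫⁻ ω, ENNReal.ofReal (exp (θ * (c - TT ω 0 v))) ∂PE) ^ K ≤
      ∫⁻ ω, ENNReal.ofReal (exp (θ * (K * c -
        ∑ i ∈ Finset.range K, TT ω (i • v) ((i + 1) • v)))) ∂PE := by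
  induction K with
  | zero => simp
  | succ K ih =>
    have e1 := lintegral_shift (K • v) ((K + 1) • v)
      (g := fun t => ENNReal.ofReal (exp (θ * (c - t)))) (by fun_prop)
    rw [show (K + 1) • v - K • v = v by rw [succ_nsmul]; abel] at e1
    rw [pow_succ']
    refine (mul_le_mul' e1.ge ih).trans ((harris_TT _ _ hθ c (by fun_prop) fun ω ω' h => ?_).trans
      (le_of_eq (lintegral_congr fun ω => ?_)))
    · have : ∑ i ∈ Finset.range K, TT ω (i • v) ((i + 1) • v) ≤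
          ∑ i ∈ Finset.range K, TT ω' (i • v) ((i + 1) • v) :=
        Finset.sum_le_sum fun i _ => mono_TT _ _ h
      gcongr
    · rw [← ENNReal.ofReal_mul (exp_pos _).le, ← exp_add, Finset.sum_range_succ]
      congr 2
      push_cast
      ring

lemma exp_neg_ge (y : ℝ) : 1 - y + y ^ 2 / 4 - y ^ 4 / 16 ≤ exp (-y) := by
  have a0 : 0 ≤ y ^ 4 := by positivity
  rcases le_total y 2 with h | h
  · have a1 := add_one_le_exp (-(y / 2))
    have a2 := pow_le_pow_left₀ (by linarith) a1 2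
    rw [← exp_nat_mul, show ((2 : ℕ) : ℝ) * -(y / 2) = -y by push_cast; ring] at a2
    linarith
  · have a1 : 4 ≤ y ^ 2 := by nlinarith
    nlinarith [exp_pos (-y), mul_le_mul_of_nonneg_left a1 (sq_nonneg y)]

lemma ofReal_int_le {f : Env → ℝ} (hf : Integrable f PE) :
    ENNReal.ofReal (∫ ω, f ω ∂PE) ≤ ∫⁻ ω, ENNReal.ofReal (f ω) ∂PE := by
  rw [integral_eq_lintegral_pos_part_sub_lintegral_neg_part hf]
  exact (ENNReal.ofReal_le_ofReal (sub_le_self _ ENNReal.toReal_nonneg)).trans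
    ENNReal.ofReal_toReal_le

variable {σ : ℝ → ℝ} {R : ℝ}

lemma fourth (hc : Conc σ R) {v : VV} {r : ℝ} (hn : n1 v ≤ r) (hr : 1 ≤ r) (hR : r ≤ R)
    (hs : 0 < σ r) : Integrable (fun ω => (TT ω 0 v - hh v) ^ 4) PE ∧
      ∫ ω, (TT ω 0 v - hh v) ^ 4 ∂PE ≤ 1152 * σ r ^ 4 := by
  obtain ⟨h1, h2⟩ := hc 0 v r (by rwa [sub_zero]) hr hR
  rw [sub_zero] at h1 h2
  obtain ⟨i1, b1⟩ := dom_pow_four (X := fun ω => TT ω 0 v - hh v) (d := 0) (by fun_prop)
    (h1.mono hs fun ω a ha => ⟨_, rfl, by rw [ha]; linarith⟩) hs le_rfl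
  obtain ⟨i2, b2⟩ := dom_pow_four (X := fun ω => -(TT ω 0 v - hh v)) (d := 0) (by fun_prop)
    (h2.mono hs fun ω a ha => ⟨_, rfl, by rw [ha]; linarith⟩) hs le_rfl
  have e : ∀ y : ℝ, y ^ 4 = max y 0 ^ 4 + max (-y) 0 ^ 4 := fun y => by
    rcases le_total y 0 with h | h
    · rw [max_eq_right h, max_eq_left (by linarith)]; ring
    · rw [max_eq_left h, max_eq_right (by linarith)]; ring
  simp only [e (TT _ 0 v - hh v)]
  refine ⟨i1.add i2, ?_⟩
  rw [integral_add i1 i2]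
  linarith

lemma var_eq (v : VV) : Var[fun ω => TT ω 0 v; PE] = ∫ ω, (TT ω 0 v - hh v) ^ 2 ∂PE :=
  variance_eq_integral (measurable_TT 0 v).aemeasurable

lemma int_sq (v : VV) : Integrable (fun ω => (TT ω 0 v - hh v) ^ 2) PE :=
  ((memLp_TT 0 v).sub (memLp_const _)).integrable_sq

lemma var_conc (hc : Conc σ R) {v : VV} {r : ℝ} (hn : n1 v ≤ r) (hr : 1 ≤ r) (hR : r ≤ R)
    (hs : 0 < σ r) : Var[fun ω => TT ω 0 v; PE] ≤ 1153 * σ r ^ 2 := by
  obtain ⟨i4, b4⟩ := fourth hc hn hr hR hs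
  have s2 : 0 < σ r ^ 2 := by positivity
  rw [var_eq]
  refine (integral_mono (int_sq v) ((integrable_const (σ r ^ 2)).add (i4.div_const (σ r ^ 2)))
    fun ω => ?_).trans ?_
  · change (TT ω 0 v - hh v) ^ 2 ≤ σ r ^ 2 + (TT ω 0 v - hh v) ^ 4 / σ r ^ 2
    rw [← sub_le_iff_le_add', le_div_iff₀ s2]
    nlinarith [sq_nonneg ((TT ω 0 v - hh v) ^ 2 - σ r ^ 2), sq_nonneg ((TT ω 0 v - hh v) * σ r)]
  · simp only [Pi.add_apply]
    rw [integral_add (integrable_const _) (i4.div_const _), integral_div]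
    simp only [integral_const, probReal_univ, smul_eq_mul, one_mul]
    have : (∫ ω, (TT ω 0 v - hh v) ^ 4 ∂PE) / σ r ^ 2 ≤ 1152 * σ r ^ 2 := by
      rw [div_le_iff₀ s2]; linarith
    linarith

/-- The variance is small unless the non-random error is large. -/
theorem var_step {μ : ℝ × ℝ → ℝ} (hμ : IsTC μ) (hc : ∀ R, Conc σ R) {v : VV} (hv : 1 ≤ n1 v)
    {K : ℕ} (hK : 4 ≤ K) (s1 : 0 < σ (n1 v)) (s2 : 0 < σ (K * n1 v))
    (hg : 2 * (hh v - μ (iv v)) ≤ σ (K * n1 v)) :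
    Var[fun ω => TT ω 0 v; PE] ≤ 16 * σ (K * n1 v) ^ 2 / K + 8 * (hh v - μ (iv v)) * σ (K * n1 v) +
      288 * σ (n1 v) ^ 4 / σ (K * n1 v) ^ 2 := by
  have hK' : (4 : ℝ) ≤ K := by exact_mod_cast hK
  obtain ⟨i4, b4⟩ := fourth (hc _) le_rfl hv le_rfl s1
  have g0 := hμ.le_hh v
  have a1 := dom_lintegral (hc _ 0 (K • v) (K * n1 v) (by rw [sub_zero, n1_nsmul])
    (by nlinarith) le_rfl).2
  have a2 := hμ.le_hh (K • v)
  rw [iv_nsmul, hμ.smul _ _ (by linarith)] at a2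
  rw [sub_zero] at a1
  generalize σ (K * n1 v) = S at *
  generalize σ (n1 v) = s at *
  have a3 : (∫⁻ ω, ENNReal.ofReal (exp (S⁻¹ * (μ (iv v) - TT ω 0 v))) ∂PE) ^ K ≤ 3 := by
    refine (harris_blocks v (by positivity) _ K).trans ((lintegral_mono fun ω => ?_).trans a1)
    have := TT_le_sum ω (fun i => i • v) K
    rw [zero_nsmul] at this
    refine ENNReal.ofReal_le_ofReal (exp_le_exp.2 ?_)
    rw [div_eq_inv_mul]
    exact mul_le_mul_of_nonneg_left (by linarith) (by positivity)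
  have i1 : Integrable (fun ω => TT ω 0 v - hh v) PE :=
    (integrable_TT 0 v).sub (integrable_const _)
  have m1 : ∫ ω, (TT ω 0 v - hh v) ∂PE = 0 := by
    rw [integral_sub (integrable_TT 0 v) (integrable_const _), integral_TT]; simp
  obtain ⟨u, hu⟩ : ∃ u, u = (hh v - μ (iv v)) / S := ⟨_, rfl⟩
  have j1 : Integrable (fun ω => 1 - S⁻¹ * (TT ω 0 v - hh v)) PE :=
    (integrable_const _).sub (i1.const_mul _)
  have j2 : Integrable (fun ω => 1 - S⁻¹ * (TT ω 0 v - hh v) +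
      S⁻¹ ^ 2 / 4 * (TT ω 0 v - hh v) ^ 2) PE := j1.add ((int_sq v).const_mul _)
  have j3 : Integrable (fun ω => exp (-u) * (1 - S⁻¹ * (TT ω 0 v - hh v) +
      S⁻¹ ^ 2 / 4 * (TT ω 0 v - hh v) ^ 2 - S⁻¹ ^ 4 / 16 * (TT ω 0 v - hh v) ^ 4)) PE :=
    (j2.sub (i4.const_mul _)).const_mul _
  have a4 := (ofReal_int_le j3).trans
    (lintegral_mono (g := fun ω => ENNReal.ofReal (exp (S⁻¹ * (μ (iv v) - TT ω 0 v))))
      fun ω => ENNReal.ofReal_le_ofReal (by
        have b1 := mul_le_mul_of_nonneg_left (exp_neg_ge (S⁻¹ * (TT ω 0 v - hh v)))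
          (exp_pos (-u)).le
        rw [← exp_add, show -u + -(S⁻¹ * (TT ω 0 v - hh v)) = S⁻¹ * (μ (iv v) - TT ω 0 v) by
          rw [hu]; ring] at b1
        refine le_trans (le_of_eq ?_) b1
        ring))
  rw [integral_const_mul, integral_sub j2 (i4.const_mul _),
    integral_add j1 ((int_sq v).const_mul _), integral_sub (integrable_const _) (i1.const_mul _),
    integral_const_mul, integral_const_mul, integral_const_mul, m1, ← var_eq] at a4
  simp only [integral_const, probReal_univ, smul_eq_mul, mul_one, mul_zero, sub_zero] at a4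
  generalize Var[fun ω => TT ω 0 v; PE] = V at *
  generalize ∫ ω, (TT ω 0 v - hh v) ^ 4 ∂PE = M at *
  obtain ⟨x, hx⟩ : ∃ x, x = S⁻¹ ^ 2 / 4 * V - S⁻¹ ^ 4 / 16 * M := ⟨_, rfl⟩
  have u0 : 0 ≤ u := by rw [hu]; exact div_nonneg (by linarith) s2.le
  have u1 : u ≤ 1 / 2 := by rw [hu, div_le_iff₀ s2]; linarith
  have k1 : 2 / (K : ℝ) ≤ 1 / 2 := by rw [div_le_iff₀ (by linarith)]; linarith
  have k0 : 0 ≤ 2 / (K : ℝ) := by positivity
  have a5 : x ≤ 2 * (2 / K + u) := by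
    by_contra hcon
    push Not at hcon
    have b1 := (abs_le.1 (abs_exp_sub_one_le (x := 2 / K + u)
      (by rw [abs_of_nonneg (by linarith)]; linarith))).2
    rw [abs_of_nonneg (by linarith)] at b1
    have b2 : exp (2 / K) ≤ exp (-u) * (1 + S⁻¹ ^ 2 / 4 * V - S⁻¹ ^ 4 / 16 * M) := by
      rw [show (2 / K : ℝ) = -u + (2 / K + u) by ring, exp_add]
      exact mul_le_mul_of_nonneg_left (by linarith) (exp_pos _).le
    have b3 := (pow_le_pow_left' ((ENNReal.ofReal_le_ofReal b2).trans a4) K).trans a3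
    rw [← ENNReal.ofReal_pow (exp_pos _).le, ← exp_nat_mul, mul_div_cancel₀ _ (by linarith),
      ← ENNReal.ofReal_ofNat, ENNReal.ofReal_le_ofReal_iff (by norm_num)] at b3
    linarith [add_one_lt_exp (x := 2) (by norm_num)]
  have e1 : V = 4 * S ^ 2 * x + M / (4 * S ^ 2) := by rw [hx]; field_simp; ring
  have e2 : 4 * S ^ 2 * (2 * (2 / K + u)) = 16 * S ^ 2 / K + 8 * (hh v - μ (iv v)) * S := by
    rw [hu]; field_simp; ring
  have e3 : M / (4 * S ^ 2) ≤ 288 * s ^ 4 / S ^ 2 := by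
    rw [div_le_div_iff₀ (by positivity) (by positivity)]
    nlinarith [mul_le_mul_of_nonneg_right b4 (sq_nonneg S)]
  linarith [mul_le_mul_of_nonneg_left a5 (show 0 ≤ 4 * S ^ 2 by positivity)]

end Pool.Agent.Lib.MP_de94ef_pr.Q.V
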