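import Pool.Agent.Lib.MP_de94ef_pr.W.Fkg

/-!
The inner estimate alone bounds the non-random error.
-/

open MeasureTheory ProbabilityTheory Set Real Function Filter Topology
open scoped ENNReal NNReal Pointwise

namespace Pool.Agent.Lib.MP_de94ef_pr.Q.V

lemma mean_of_tail {v : VV} (hv : 1 ≤ n1 v) {m s D : ℝ} (m0 : 0 ≤ m) (hs : 0 ≤ s)
    (hD : 0 ≤ D) (h : PE {ω | s < TT ω 0 v - m} ≤ ENNReal.ofReal (D / n1 v ^ 4)) :
    hh v - m ≤ s + D + 10 ^ 18 := by
  classical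
  have N1 : 1 ≤ n1 v ^ 4 := one_le_pow₀ hv
  have N0 : 0 < n1 v ^ 4 := by linarith
  obtain ⟨i4, b4⟩ := pow_four_TT 0 v (r := n1 v) (by rw [sub_zero]) hv
  have hE : MeasurableSet {ω : Env | s < TT ω 0 v - m} :=
    measurableSet_lt measurable_const (by fun_prop)
  have i1 : Integrable ({ω : Env | s < TT ω 0 v - m}.indicator fun _ => n1 v ^ 4) PE :=
    (integrable_const _).indicator hE
  have i2 : Integrable (fun ω => TT ω 0 v ^ 4 / n1 v ^ 4) PE := i4.div_const _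
  have i3 : Integrable
      (fun ω => s + {ω : Env | s < TT ω 0 v - m}.indicator (fun _ => n1 v ^ 4) ω) PE :=
    (integrable_const _).add i1
  have e1 : hh v - m = ∫ ω, (TT ω 0 v - m) ∂PE := by
    rw [integral_sub (integrable_TT 0 v) (integrable_const _), integral_TT]; simp
  rw [e1]
  refine (integral_mono ((integrable_TT 0 v).sub (integrable_const _)) (i3.add i2)
    fun ω => ?_).trans ?_
  · change TT ω 0 v - m ≤ s + {ω : Env | s < TT ω 0 v - m}.indicator
      (fun _ => n1 v ^ 4) ω + TT ω 0 v ^ 4 / n1 v ^ 4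
    have t0 := TT_nonneg ω 0 v
    have a2 : 0 ≤ TT ω 0 v ^ 4 / n1 v ^ 4 := by positivity
    by_cases hω : ω ∈ {ω : Env | s < TT ω 0 v - m}
    · rw [indicator_of_mem hω]
      rcases le_total (TT ω 0 v) (n1 v ^ 4) with h1 | h1
      · linarith
      · have a3 : TT ω 0 v ≤ TT ω 0 v ^ 4 / n1 v ^ 4 := by
          rw [le_div_iff₀ N0]
          have b1 : TT ω 0 v ^ 2 ≤ TT ω 0 v ^ 4 := pow_le_pow_right₀ (by linarith) (by norm_num)
          nlinarith [mul_le_mul_of_nonneg_left h1 t0]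
        linarith
    · have a1 : TT ω 0 v - m ≤ s := not_lt.1 fun hc => hω hc
      rw [indicator_of_notMem hω]
      linarith
  · simp only [Pi.add_apply]
    rw [integral_add i3 i2, integral_add (integrable_const _) i1, integral_indicator_const _ hE,
      integral_div]
    simp only [integral_const, probReal_univ, smul_eq_mul, one_mul]
    have a1 : PE.real {ω : Env | s < TT ω 0 v - m} ≤ D / n1 v ^ 4 :=
      ENNReal.toReal_le_of_le_ofReal (by positivity) h
    rw [le_div_iff₀ N0] at a1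
    have a3 : (∫ ω, TT ω 0 v ^ 4 ∂PE) / n1 v ^ 4 ≤ 10 ^ 18 := by
      rw [div_le_iff₀ N0]; linarith
    linarith

theorem mean_of_inner {Ω : Type} [MeasureSpace Ω] [IsProbabilityMeasure (volume : Measure Ω)]
    {T : Ω → ℤ × ℤ → ℝ} {μ : ℝ × ℝ → ℝ} {Φ : Ω → EE → ℝ} (hΦ : MeasurePreserving Φ volume PE)
    (ha : ∀ᵐ ω ∂(volume : Measure Ω), ∀ v, T ω v = TT (Φ ω) 0 v) (hμ : IsTC μ) {ζ : ℝ}
    (z0 : 0 < ζ) (z1 : ζ < 2 / 3)
    (h2 : Asymptotics.IsBigO atTop
        (fun t : ℝ => ((volume : Measure Ω) {ω | ¬ (((1 - t ^ (-(2 / 3 : ℝ) + ζ)) * t) •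
            {x : ℝ × ℝ | μ x ≤ 1} ⊆ {x : ℝ × ℝ | ∃ v : ℤ × ℤ, T ω v ≤ t ∧
            |x.1 - (v.1 : ℝ)| ≤ 1 / 2 ∧ |x.2 - (v.2 : ℝ)| ≤ 1 / 2})}).toReal)
        (fun t : ℝ => t ^ (-(4 : ℝ)))) :
    ∃ G : ℝ, 0 ≤ G ∧ ∀ v, 1 ≤ n1 v → hh v - μ (iv v) ≤ G * n1 v ^ (1 / 3 + ζ) := by
  obtain ⟨c2, c20, b2⟩ := Asymptotics.isBigO_iff'.1 h2
  obtain ⟨a, ha'⟩ : ∃ a, a = 1 / 3 + ζ := ⟨_, rfl⟩
  have a0 : 0 < a := by linarith
  have a1 : a < 1 := by linarith
  obtain ⟨t0, ht0⟩ := eventually_atTop.1 (b2.and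
    (((tendsto_rpow_atTop (show 0 < 1 - a by linarith)).eventually_ge_atTop 4).and
      (eventually_ge_atTop 1)))
  have t1 : 1 ≤ t0 := (ht0 t0 le_rfl).2.2
  have key : ∀ t : ℝ, 0 < t → t ^ (-(2 / 3 : ℝ) + ζ) * t = t ^ a := fun t ht => by
    rw [← rpow_add_one ht.ne', ha']; congr 1; ring
  rw [← ha']
  refine ⟨2 + 11 * t0 + c2 * 11 ^ 4 + 10 ^ 18, by positivity, fun v hv => ?_⟩
  have n0 : 0 < n1 v := by linarith
  have p1 : 1 ≤ n1 v ^ a := one_le_rpow hv a0.le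
  have p3 : 0 ≤ c2 * 11 ^ 4 := by positivity
  have m0 := hμ.nonneg (iv v)
  have m1 := hμ.le (iv v)
  have m2 := hμ.ge (iv v)
  rw [r1_iv] at m1 m2
  generalize hm : μ (iv v) = m at m0 m1 m2
  rcases le_total m t0 with hc | hc
  · nlinarith [hh_le v]
  obtain ⟨s, hs⟩ : ∃ s, s = (2 * m) ^ a := ⟨_, rfl⟩
  have s0 : 0 < s := by rw [hs]; exact rpow_pos_of_pos (by linarith) _
  have s1 : s ≤ m / 2 := by
    have d1 := (ht0 (2 * m) (by linarith)).2.1
    have d2 : (2 * m) ^ (1 - a) * s = 2 * m := by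
      rw [hs, ← rpow_add (by linarith), sub_add_cancel, rpow_one]
    nlinarith
  have h := (ht0 (m + s) (by linarith)).1
  have t0' : 0 < m + s := by linarith
  rw [Real.norm_of_nonneg ENNReal.toReal_nonneg, Real.norm_of_nonneg (rpow_nonneg t0'.le _),
    rpow_neg t0'.le, show (4 : ℝ) = ((4 : ℕ) : ℝ) by norm_num, rpow_natCast] at h
  have hE : MeasurableSet {ω : Env | s < TT ω 0 v - m} :=
    measurableSet_lt measurable_const (by fun_prop)
  have := mean_of_tail hv (s := s) (D := c2 * 11 ^ 4) m0 s0.le p3 (by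
    rw [← hΦ.measure_preimage hE.nullMeasurableSet]
    refine le_trans (measure_mono_ae ?_)
      ((ENNReal.le_ofReal_iff_toReal_le (measure_ne_top _ _) (by positivity)).2 (h.trans ?_))
    · filter_upwards [ha] with ω hω hE
      have hE' : s < T ω v - m := by rw [hω]; exact hE
      intro hsub
      have d1 : (m + s) ^ a ≤ s := by
        rw [hs]; exact rpow_le_rpow (by linarith) (by linarith) a0.le
      obtain ⟨w, f1, f2, f3⟩ := hsub (a := iv v) (by
        rw [sub_mul, one_mul, key _ (by linarith), mem_smul_ball hμ (by linarith), hm]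
        linarith)
      rw [show w = v from Prod.ext (int_eq f2) (int_eq f3)] at f1
      linarith
    · rw [mul_div_assoc]
      refine mul_le_mul_of_nonneg_left ?_ c20.le
      rw [← one_div, div_le_div_iff₀ (by positivity) (by positivity), one_mul, ← mul_pow]
      exact pow_le_pow_left₀ n0.le (by linarith) 4)
  have s2 : s ≤ 2 * n1 v ^ a := by
    have d2 : (2 : ℝ) ^ a ≤ 2 :=
      (rpow_le_rpow_of_exponent_le (by norm_num) a1.le).trans (rpow_one _).le
    rw [hs, mul_rpow (by norm_num) m0]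
    exact mul_le_mul d2 (rpow_le_rpow m0 m1 a0.le) (by positivity) (by norm_num)
  nlinarith

end Pool.Agent.Lib.MP_de94ef_pr.Q.V
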